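import Pool.Agent.H756.GN.Stm
import Pool.Agent.W695.KH.Final
import Pool.Agent.W932.KH.Main
import Pool.Agent.Y665.FF.Milb
import Pool.Agent.Y445.FF.Mila

/-!
# Hyperplane sections from the Poincare inequality (project GN, package HYPW)
-/

set_option autoImplicit false

namespace Pool.Agent.U139.GN

open MeasureTheory Set Filter Topology
open scoped ENNReal InnerProductSpace Pointwise
open Pool.Agent.W695.KH (Eu EU EV VV Sm Pot Uu sec PerLe sec_bound perim)
open Pool.Agent.Y506.FF (LCon)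
open Pool.Agent.W932.KH (EV_scale closure_ae)

/-- the average of a bounded function -/
theorem EV_le {n : ℕ} {Ω : Set (Eu (Fin n))} (hfin : volume Ω ≠ ⊤)
    (hvol : 0 < (volume Ω).toReal) (f : Eu (Fin n) → ℝ) (h0 : ∀ x, 0 ≤ f x) (c : ℝ)
    (hc : ∀ x, f x ≤ c) : EV Ω f ≤ c := by
  unfold EV
  rw [div_le_iff₀ hvol]
  have h1 : ∫ x in Ω, f x ≤ ∫ x in Ω, (fun _ => c) x :=
    integral_mono_of_nonneg (Eventually.of_forall h0) (integrableOn_const hfin)
      (Eventually.of_forall hc)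
  refine h1.trans (le_of_eq ?_)
  rw [setIntegral_const, smul_eq_mul]
  show (volume Ω).toReal * c = _
  ring

theorem fderiv_scale {n : ℕ} {v : Eu (Fin n) → ℝ} (hv : ContDiff ℝ 1 v) {r l : ℝ} (hr : 0 < r)
    (hr1 : r < 1) (hl : 0 ≤ l) (h : ∀ x, ‖fderiv ℝ v x‖ ≤ l) (x : Eu (Fin n)) :
    ‖fderiv ℝ (fun x => v (r • x)) x‖ ≤ l := by
  have h1 : HasFDerivAt v (fderiv ℝ v (r • x)) (r • x) :=
    (hv.differentiable (by norm_num) _).hasFDerivAt
  have h2 : HasFDerivAt (fun x : Eu (Fin n) => r • x) (r • ContinuousLinearMap.id ℝ (Eu (Fin n))) x :=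
    (hasFDerivAt_id x).const_smul r
  have h3 := h1.comp x h2
  have h4 : fderiv ℝ (fun x => v (r • x)) x =
      (fderiv ℝ v (r • x)).comp (r • ContinuousLinearMap.id ℝ (Eu (Fin n))) := h3.fderiv
  rw [h4]
  refine (ContinuousLinearMap.opNorm_comp_le _ _).trans ?_
  have h5 : ‖r • ContinuousLinearMap.id ℝ (Eu (Fin n))‖ ≤ 1 := by
    rw [norm_smul, Real.norm_eq_abs, abs_of_pos hr]
    have := ContinuousLinearMap.norm_id_le (𝕜 := ℝ) (E := Eu (Fin n))
    have h6 := norm_nonneg (ContinuousLinearMap.id ℝ (Eu (Fin n)))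
    nlinarith
  calc ‖fderiv ℝ v (r • x)‖ * ‖r • ContinuousLinearMap.id ℝ (Eu (Fin n))‖ ≤ l * 1 :=
        mul_le_mul (h _) h5 (norm_nonneg _) hl
    _ = l := mul_one l

theorem t_HYPW : Pool.Agent.H756.GN.S_HYPW := by
  obtain ⟨Cs, hCs, hs⟩ := sec_bound
  refine ⟨Real.sqrt Cs * 75, by positivity, ?_⟩
  intro n hn Ω ho hconv hbd h0 hsym Cp hCp hPI a ha s hspos hsle E hE hEΩ hEvol P hP
  have hfin : volume Ω < ⊤ := hbd.measure_lt_top
  have hvol : 0 < (volume Ω).toReal :=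
    ENNReal.toReal_pos (ho.measure_pos volume ⟨0, h0⟩).ne' hfin.ne
  have hsC : 0 < Real.sqrt Cp := Real.sqrt_pos.2 hCp
  have key : (volume Ω).toReal ≤ 3 * (25 * Real.sqrt Cp) * P := by
    refine perim (Fin n) Ω ho hconv hbd h0 E hE hEΩ hEvol P hP (25 * Real.sqrt Cp)
      (by positivity) ?_
    intro r hr0 hr1 f L M hf hf12 hV
    have hDc : IsCompact (r • closure Ω) := hbd.isCompact_closure.smul r
    have hDcv : Convex ℝ (r • closure Ω) := hconv.closure.smul r
    have hDvol : 0 < volume (r • closure Ω) := by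
      rw [Measure.addHaar_smul]
      refine ENNReal.mul_pos ?_ ?_
      · rw [Ne, ENNReal.ofReal_eq_zero, not_le]
        exact abs_pos.2 (pow_ne_zero _ hr0.ne')
      · rw [measure_congr (closure_ae ho hconv)]
        exact (ho.measure_pos volume ⟨0, h0⟩).ne'
    have hl : 0 < 1 / (5 * Real.sqrt Cp) := by positivity
    have hLC : LCon (r • closure Ω) (1 / (5 * Real.sqrt Cp)) (1 / 25) := by
      intro v hv hv1 hvl
      have e : VV (r • closure Ω) v = VV Ω (fun x => v (r • x)) := by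
        unfold VV
        rw [EV_scale ho hconv r hr0, EV_scale ho hconv r hr0]
      rw [e]
      refine (hPI (fun x => v (r • x)) (hv.comp (contDiff_const_smul r)) fun x => hv1 _).trans ?_
      have h1 : EV Ω (fun x => ‖fderiv ℝ (fun x => v (r • x)) x‖ ^ 2) ≤
          (1 / (5 * Real.sqrt Cp)) ^ 2 :=
        EV_le hfin.ne hvol _ (fun x => sq_nonneg _) _ fun x =>
          pow_le_pow_left₀ (norm_nonneg _) (fderiv_scale hv hr0 hr1 hl.le hvl x) 2
      calc Cp * EV Ω (fun x => ‖fderiv ℝ (fun x => v (r • x)) x‖ ^ 2) ≤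
            Cp * (1 / (5 * Real.sqrt Cp)) ^ 2 := mul_le_mul_of_nonneg_left h1 hCp.le
        _ = 1 / 25 := by
            rw [div_pow, mul_pow, Real.sq_sqrt hCp.le]
            field_simp
            norm_num
    have h2 := Pool.Agent.Y665.FF.milb Pool.Agent.Y445.FF.mila' (Fin n) (r • closure Ω) hDc hDcv
      hDvol (1 / 25) (1 / (5 * Real.sqrt Cp)) (by norm_num) hl hLC f L M hf hf12 (by linarith)
    set V := VV (r • closure Ω) f
    set Y := EV (r • closure Ω) fun x => ‖fderiv ℝ f x‖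
    have h3 : 2 / (1 / (5 * Real.sqrt Cp)) * Y = 10 * Real.sqrt Cp * Y := by
      field_simp
      ring
    rw [h3] at h2
    have h4 : 25 * Real.sqrt Cp * Y = 5 / 2 * (10 * Real.sqrt Cp * Y) := by ring
    rw [h4]
    nlinarith
  have hPpos : 0 < P := by
    have h2 : 0 < 3 * (25 * Real.sqrt Cp) := by positivity
    by_contra hcon
    push Not at hcon
    have : 3 * (25 * Real.sqrt Cp) * P ≤ 0 := mul_nonpos_of_nonneg_of_nonpos h2.le hcon
    linarith
  have hsq : (volume Ω).toReal ^ 2 ≤ 75 ^ 2 * Cp * P ^ 2 := by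
    refine (pow_le_pow_left₀ hvol.le key 2).trans (le_of_eq ?_)
    have : Real.sqrt Cp ^ 2 = Cp := Real.sq_sqrt hCp.le
    calc (3 * (25 * Real.sqrt Cp) * P) ^ 2 = 75 ^ 2 * Real.sqrt Cp ^ 2 * P ^ 2 := by ring
      _ = _ := by rw [this]
  obtain ⟨hsec1, hsec2, -⟩ := hs (Fin n) Ω ho hconv hbd h0 hsym a ha
  have h3 : (sec Ω a).toReal ^ 2 ≤ (Real.sqrt Cs * 75 * Real.sqrt (Cp / s) * P) ^ 2 := by
    have h4 : (sec Ω a).toReal ^ 2 * s ≤ Cs * (75 ^ 2 * Cp * P ^ 2) :=
      (mul_le_mul_of_nonneg_left hsle (sq_nonneg _)).trans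
        (hsec2.trans (mul_le_mul_of_nonneg_left hsq hCs.le))
    have h5 : (Real.sqrt Cs * 75 * Real.sqrt (Cp / s) * P) ^ 2 =
        Cs * 75 ^ 2 * (Cp / s) * P ^ 2 := by
      rw [mul_pow, mul_pow, mul_pow, Real.sq_sqrt hCs.le, Real.sq_sqrt (by positivity)]
    rw [h5]
    have h6 : (sec Ω a).toReal ^ 2 * s ≤ (Cs * 75 ^ 2 * (Cp / s) * P ^ 2) * s := by
      refine h4.trans (le_of_eq ?_)
      field_simp
    exact le_of_mul_le_mul_right h6 hspos
  have h7 : (sec Ω a).toReal ≤ Real.sqrt Cs * 75 * Real.sqrt (Cp / s) * P :=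
    le_of_sq_le_sq h3 (by positivity)
  rw [← ENNReal.ofReal_toReal hsec1]
  exact ENNReal.ofReal_le_ofReal h7

end Pool.Agent.U139.GN
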